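import Pool.Agent.LKT.Stmts

/-!
# Squad LKT (MP_e0fe99_lc), row CRM: Cramer relation of five vectors of the four-dimensional space
-/

set_option autoImplicit false

namespace Pool.Agent.LKT.H27

open Pool.Agent.LKT

lemma d4_expand (a b c d : Fin 4 → ℝ) : d4 a b c d =
    a 0 * (b 1 * (c 2 * d 3 - c 3 * d 2) - b 2 * (c 1 * d 3 - c 3 * d 1) +
      b 3 * (c 1 * d 2 - c 2 * d 1)) -
    a 1 * (b 0 * (c 2 * d 3 - c 3 * d 2) - b 2 * (c 0 * d 3 - c 3 * d 0) +
      b 3 * (c 0 * d 2 - c 2 * d 0)) +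
    a 2 * (b 0 * (c 1 * d 3 - c 3 * d 1) - b 1 * (c 0 * d 3 - c 3 * d 0) +
      b 3 * (c 0 * d 1 - c 1 * d 0)) -
    a 3 * (b 0 * (c 1 * d 2 - c 2 * d 1) - b 1 * (c 0 * d 2 - c 2 * d 0) +
      b 2 * (c 0 * d 1 - c 1 * d 0)) := by
  unfold d4
  simp [Matrix.det_succ_row_zero, Fin.sum_univ_succ, Fin.succAbove]
  ring

theorem crm : CrmStmt := by
  refine ⟨fun a b c d e i => ?_, fun a b c d => ⟨?_, ?_, ?_⟩, fun a a' b c d s t => ?_,
    fun a b c => ?_⟩
  · simp only [d4_expand]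
    fin_cases i <;> simp <;> ring
  · simp only [d4_expand]; ring
  · simp only [d4_expand]; ring
  · simp only [d4_expand]; ring
  · simp only [d4_expand, Pi.add_apply, Pi.smul_apply, smul_eq_mul]; ring
  · simp only [d4_expand]; ring

end Pool.Agent.LKT.H27
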